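import Pool.Agent.Helper79.TL.Defs2

/-! TL-C3, TL-C4 (helper96) -/

set_option autoImplicit false
set_option linter.unusedSectionVars false

open Module Matrix
open scoped MatrixGroups
open Pool.Agent.Helper31.Brauer

namespace Pool.Agent.Helper79.TL.C3

open GPre

variable {G : Type} [Group G]

open Classical in
lemma card_fibre [Fintype G] (h g₀ : G) :
    (Finset.univ.filter (fun g : G => g * h * g⁻¹ = g₀ * h * g₀⁻¹)).card
      = Nat.card ↥(Subgroup.centralizer {h}) := by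
  rw [← Fintype.card_coe, ← Nat.card_eq_fintype_card]
  refine Nat.card_congr ⟨fun g => ⟨g₀⁻¹ * g.1, ?_⟩, fun c => ⟨g₀ * c.1, ?_⟩, ?_, ?_⟩
  · have hg := (Finset.mem_filter.1 g.2).2
    rw [Subgroup.mem_centralizer_singleton_iff]
    have h1 : g₀⁻¹ * (g.1 * h * g.1⁻¹) * g.1 = g₀⁻¹ * (g₀ * h * g₀⁻¹) * g.1 := by rw [hg]
    have h2 : g₀⁻¹ * g.1 * h = h * (g₀⁻¹ * g.1) := by
      calc g₀⁻¹ * g.1 * h = g₀⁻¹ * (g.1 * h * g.1⁻¹) * g.1 := by group
        _ = g₀⁻¹ * (g₀ * h * g₀⁻¹) * g.1 := h1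
        _ = h * (g₀⁻¹ * g.1) := by group
    exact h2
  · have hc := c.2
    rw [Subgroup.mem_centralizer_singleton_iff] at hc
    have h2 : c.1 * h = h * c.1 := hc
    refine Finset.mem_filter.2 ⟨Finset.mem_univ _, ?_⟩
    calc g₀ * c.1 * h * (g₀ * c.1)⁻¹ = g₀ * (c.1 * h) * c.1⁻¹ * g₀⁻¹ := by group
      _ = g₀ * (h * c.1) * c.1⁻¹ * g₀⁻¹ := by rw [h2]
      _ = g₀ * h * g₀⁻¹ := by group
  · intro g
    apply Subtype.ext
    simp
  · intro c
    apply Subtype.ext
    simp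

/-- TL-C3 -/
theorem sum_conj_eq [Fintype G] {K : Type} [Field K] {V : Type} [AddCommGroup V] [Module K V]
    (ρ : Representation K G V) (h : G) (m : V) :
    ∑ g : G, ρ (g * h * g⁻¹) m = (Nat.card ↥(Subgroup.centralizer {h}) : K) • classSum ρ h m := by
  classical
  unfold classSum
  rw [LinearMap.sum_apply, Finset.smul_sum]
  rw [← Finset.sum_fiberwise_of_maps_to (s := (Finset.univ : Finset G))
    (t := Finset.univ.filter (fun x => IsConj h x)) (g := fun g => g * h * g⁻¹)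
    (fun g _ => Finset.mem_filter.2 ⟨Finset.mem_univ _, isConj_iff.2 ⟨g, rfl⟩⟩)]
  have key : ∀ x ∈ Finset.univ.filter (fun x => IsConj h x),
      ∑ g ∈ Finset.univ.filter (fun g : G => g * h * g⁻¹ = x), ρ (g * h * g⁻¹) m
        = (Nat.card ↥(Subgroup.centralizer {h}) : K) • ρ x m := by
    intro x hx
    obtain ⟨g₀, rfl⟩ := isConj_iff.1 (Finset.mem_filter.1 hx).2
    rw [Finset.sum_congr rfl (fun g hg => by rw [(Finset.mem_filter.1 hg).2]), Finset.sum_const,
      card_fibre, Nat.cast_smul_eq_nsmul K]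
  rw [Finset.sum_congr rfl key]

/-- TL-C4 -/
theorem sum_E_of_classSum [Fintype G] {F : Type} [Field F] {D : GPre G} {V : Type} [AddCommGroup V]
    [Module F V] (ρ : Representation F G V) (lam : G → F)
    (hlam : ∀ g, classSum ρ g = lam g • (LinearMap.id : V →ₗ[F] V)) (m : V) :
    ∑ g : G, ρ g (D.E ρ (ρ g⁻¹ m)) = Lam D lam • m := by
  have h1 : ∀ g : G, ρ g (D.E ρ (ρ g⁻¹ m)) = ∑ a, ρ (g * D.r a * g⁻¹) m := by
    intro g
    rw [E_apply, map_sum]
    refine Finset.sum_congr rfl fun a _ => ?_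
    rw [← rho_mul, ← rho_mul, mul_assoc]
  rw [Finset.sum_congr rfl (fun g _ => h1 g), Finset.sum_comm]
  rw [Finset.sum_congr rfl (fun a _ => sum_conj_eq ρ (D.r a) m)]
  unfold Lam
  rw [Finset.sum_smul]
  refine Finset.sum_congr rfl fun a _ => ?_
  rw [hlam, LinearMap.smul_apply, LinearMap.id_apply, mul_smul]

end Pool.Agent.Helper79.TL.C3
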